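import Pool.Agent.Lib.MP_35de71_co.GeoZc
import Pool.Agent.Lib.MP_35de71_co.CalNum

open Set MeasureTheory Metric

namespace Pool.Agent.Results.MP_35de71_co.EllipseZones

/-- The Euclidean plane. -/
abbrev Plane := EuclideanSpace ℝ (Fin 2)

/-- The area of `S`. -/
noncomputable def area (S : Set Plane) : ENNReal := volume S

/-- A convex equipartition of `C` into `n` pieces. -/
structure IsEquipartition (C : Set Plane) {n : ℕ} (P : Fin n → Set Plane) : Prop where
  compact : ∀ i, IsCompact (P i)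
  convex : ∀ i, Convex ℝ (P i)
  cover : ⋃ i, P i = C
  disjoint : ∀ i j, i ≠ j → Disjoint (interior (P i)) (interior (P j))
  equal : ∀ i, area (P i) = area C / n

/-- The sum of the perimeters (lengths of the boundaries) of the pieces. -/
noncomputable def totalPerimeter {n : ℕ} (P : Fin n → Set Plane) : ENNReal :=
  ∑ i, μH[1] (frontier (P i))

/-- An equipartition with the largest total perimeter among all with the same number of pieces. -/
def IsMaximiser (C : Set Plane) {n : ℕ} (P : Fin n → Set Plane) : Prop :=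
  IsEquipartition C P ∧
    ∀ Q : Fin n → Set Plane, IsEquipartition C Q → totalPerimeter Q ≤ totalPerimeter P

/-- The ellipse with centre `c`, image of the unit disc under `T`. -/
def ellipse (c : Plane) (T : Plane ≃L[ℝ] Plane) : Set Plane :=
  (fun x => c + T x) '' closedBall 0 1

/-- `T u` with `u` a unit vector stretched most by `T` lies along a major axis, and `f` kills it. -/
def KillsMajorAxis (T : Plane ≃L[ℝ] Plane) (f : Plane →L[ℝ] ℝ) : Prop :=
  ∃ u : Plane, ‖u‖ = 1 ∧ (∀ x, ‖T x‖ ≤ ‖T u‖ * ‖x‖) ∧ f (T u) = 0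

/-- The part of `S` where `a ≤ f`. -/
def above (S : Set Plane) (f : Plane →L[ℝ] ℝ) (a : ℝ) : Set Plane := {x ∈ S | a ≤ f x}

/-- The part of `S` where `f ≤ b`. -/
def below (S : Set Plane) (f : Plane →L[ℝ] ℝ) (b : ℝ) : Set Plane := {x ∈ S | f x ≤ b}

/-- The removed area `r` is zero, equal to the area `v` of a piece, or at least `2 v`. -/
def Admissible (r v : ENNReal) : Prop := r = 0 ∨ r = v ∨ 2 * v ≤ r

/-- Some interior point of `C` lies in three different pieces. -/
def HasTriplePoint (C : Set Plane) {n : ℕ} (P : Fin n → Set Plane) : Prop :=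
  ∃ x ∈ interior C, ∃ i j k : Fin n, i ≠ j ∧ i ≠ k ∧ j ≠ k ∧ x ∈ P i ∧ x ∈ P j ∧ x ∈ P k

open Pool.Agent.Lib.MP_35de71_co Real in
theorem result (c : Plane) (T : Plane ≃L[ℝ] Plane) (f : Plane →L[ℝ] ℝ) (hf : f ≠ 0)
    (hT : KillsMajorAxis T f) (lo hi : ℝ) (C : Set Plane)
    (hC : C = below (above (ellipse c T) f lo) f hi) (hne : (interior C).Nonempty)
    (n : ℕ) (hn : 2 ≤ n) (hlo : Admissible (area (below (ellipse c T) f lo)) (area C / n))
    (hhi : Admissible (area (above (ellipse c T) f hi)) (area C / n)) :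
    (∃ a : ℕ → ℝ, IsMaximiser C fun k : Fin n => below (above C f (a k)) f (a (k + 1))) ∧
    ∀ P : Fin n → Set Plane, IsMaximiser C P → ¬ HasTriplePoint C P := by
  obtain ⟨u, hu, hmax, hfu⟩ := hT
  have sl : ∀ S a b, below (above S f a) f b = {x ∈ S | a ≤ f x ∧ f x ≤ b} := fun S a b =>
    Set.ext fun x => and_assoc
  rw [sl] at hC
  simp only [sl]
  obtain ⟨a, z1, z2⟩ := fullZ calibR c T u hu hmax f hf hfu lo hi C hC hne n hn hlo hhi
  have q1 : IsEquipartition C fun k : Fin n => {x ∈ C | a k ≤ f x ∧ f x ≤ a (k + 1)} :=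
    ⟨z1.cpt, z1.cvx, z1.cov, z1.dis, z1.vol⟩
  exact ⟨⟨a, q1, fun P hP => (z2 P ⟨hP.compact, hP.convex, hP.cover, hP.disjoint, hP.equal⟩).1⟩,
    fun P hP h => absurd (hP.2 _ q1) (not_le.mpr ((z2 P ⟨hP.1.compact, hP.1.convex, hP.1.cover,
      hP.1.disjoint, hP.1.equal⟩).2.1 h))⟩

end Pool.Agent.Results.MP_35de71_co.EllipseZones
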