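import Pool.Agent.Lib.MP_35de71_co.GeoZc
import Pool.Agent.Lib.MP_35de71_co.CalNum
import Pool.Agent.Lib.MP_35de71_co.NbC

open Set MeasureTheory Metric

namespace Pool.Agent.Results.MP_35de71_co.NearEllipse

/-- The Euclidean plane. -/
abbrev Plane := EuclideanSpace ℝ (Fin 2)

/-- The area of `S`. -/
noncomputable def area (S : Set Plane) : ENNReal := volume S

/-- A compact convex set with nonempty interior. -/
def IsBody (C : Set Plane) : Prop := IsCompact C ∧ Convex ℝ C ∧ (interior C).Nonempty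

/-- A convex equipartition of `C` into `n` pieces. -/
structure IsEquipartition (C : Set Plane) {n : ℕ} (P : Fin n → Set Plane) : Prop where
  compact : ∀ i, IsCompact (P i)
  convex : ∀ i, Convex ℝ (P i)
  cover : ⋃ i, P i = C
  disjoint : ∀ i j, i ≠ j → Disjoint (interior (P i)) (interior (P j))
  equal : ∀ i, area (P i) = area C / n

/-- The sum of the perimeters (lengths of the boundaries) of the pieces. -/
noncomputable def totalPerimeter {n : ℕ} (P : Fin n → Set Plane) : ENNReal :=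
  ∑ i, μH[1] (frontier (P i))

/-- An equipartition with the largest total perimeter among all with the same number of pieces. -/
def IsMaximiser (C : Set Plane) {n : ℕ} (P : Fin n → Set Plane) : Prop :=
  IsEquipartition C P ∧
    ∀ Q : Fin n → Set Plane, IsEquipartition C Q → totalPerimeter Q ≤ totalPerimeter P

/-- The ellipse with centre `c`, image of the unit disc under `T`. -/
def ellipse (c : Plane) (T : Plane ≃L[ℝ] Plane) : Set Plane :=
  (fun x => c + T x) '' closedBall 0 1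

/-- Two unit vectors are stretched differently by `T`: the ellipse is not a disc. -/
def NotCircular (T : Plane ≃L[ℝ] Plane) : Prop :=
  ∃ x y : Plane, ‖x‖ = 1 ∧ ‖y‖ = 1 ∧ ‖T x‖ < ‖T y‖

/-- `T u` with `u` a unit vector stretched most by `T` lies along a major axis, and `f` kills it. -/
def KillsMajorAxis (T : Plane ≃L[ℝ] Plane) (f : Plane →L[ℝ] ℝ) : Prop :=
  ∃ u : Plane, ‖u‖ = 1 ∧ (∀ x, ‖T x‖ ≤ ‖T u‖ * ‖x‖) ∧ f (T u) = 0

/-- The part of `S` where `a ≤ f`. -/
def above (S : Set Plane) (f : Plane →L[ℝ] ℝ) (a : ℝ) : Set Plane := {x ∈ S | a ≤ f x}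

/-- The part of `S` where `f ≤ b`. -/
def below (S : Set Plane) (f : Plane →L[ℝ] ℝ) (b : ℝ) : Set Plane := {x ∈ S | f x ≤ b}

/-- The removed area `r` is zero, equal to the area `v` of a piece, or at least `2 v`. -/
def Admissible (r v : ENNReal) : Prop := r = 0 ∨ r = v ∨ 2 * v ≤ r

/-- Some point of the plane lies in three different pieces. -/
def HasTriplePoint {n : ℕ} (P : Fin n → Set Plane) : Prop :=
  ∃ x, ∃ i j k : Fin n, i ≠ j ∧ i ≠ k ∧ j ≠ k ∧ x ∈ P i ∧ x ∈ P j ∧ x ∈ P k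

open Pool.Agent.Lib.MP_35de71_co in
theorem result (c : Plane) (T : Plane ≃L[ℝ] Plane) (hc : NotCircular T) (f : Plane →L[ℝ] ℝ)
    (hf : f ≠ 0) (hT : KillsMajorAxis T f) (lo hi : ℝ) (Z : Set Plane)
    (hZ : Z = below (above (ellipse c T) f lo) f hi) (hne : (interior Z).Nonempty)
    (n : ℕ) (hn : 2 ≤ n) (hlo : Admissible (area (below (ellipse c T) f lo)) (area Z / n))
    (hhi : Admissible (area (above (ellipse c T) f hi)) (area Z / n)) :
    ∃ ε : ℝ, 0 < ε ∧ ∀ C : Set Plane, IsBody C → hausdorffDist C Z < ε →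
      (∃ P : Fin n → Set Plane, IsMaximiser C P) ∧
      ∀ P : Fin n → Set Plane, IsMaximiser C P → ¬ HasTriplePoint P := by
  obtain ⟨u, hu, hmax, hfu⟩ := hT
  obtain ⟨x, y, hx, hy, hxy⟩ := hc
  have hs : ∃ y, ‖T y‖ < ‖T u‖ * ‖y‖ := ⟨x, by
    have := hmax y
    rw [hy] at this
    rw [hx]
    exact hxy.trans_le this⟩
  obtain ⟨a, h1, h2⟩ := fullZ calibR c T u hu hmax f hf hfu lo hi Z
    (hZ.trans (Set.ext fun x => and_assoc)) hne n hn hlo hhi
  have le : ∀ k : Fin n, a k ≤ a (k + 1) := fun k => by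
    obtain ⟨x, hx⟩ := nonempty_of_measure_ne_zero (μ := volume)
      (by rw [h1.vol k]; exact nb_vol_ne hne)
    exact hx.2.1.trans hx.2.2
  have mono : ∀ k, k ≤ n → ∀ i, i ≤ k → a i ≤ a k := fun k => by
    induction k with
    | zero => intro _ i h; rw [Nat.le_zero.1 h]
    | succ k ih =>
      intro hk i h
      rcases h.lt_or_eq with h | h
      · exact (ih (by omega) i (by omega)).trans (le ⟨k, hk⟩)
      · rw [h]
  obtain ⟨ε, e0, h3⟩ := nb_open hne (by omega) hf h1
    (fun i k h x hx y hy => hx.2.2.trans ((mono k k.2.le _ h).trans hy.2.1))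
    fun P hP h ht => absurd h (not_le.2 ((h2 P hP).2.2 hs ht))
  refine ⟨ε, e0, fun C hC hd => ⟨?_, fun P hP => h3 C hC.1 hC.2.1 hC.2.2 hd P
    ⟨hP.1.compact, hP.1.convex, hP.1.cover, hP.1.disjoint, hP.1.equal⟩
    fun Q hQ => hP.2 Q ⟨hQ.cpt, hQ.cvx, hQ.cov, hQ.dis, hQ.vol⟩⟩⟩
  obtain ⟨P, p1, p2⟩ := nb_exists_max hC.1 hC.2.1 hC.2.2 (n := n) (by omega)
  exact ⟨P, ⟨p1.cpt, p1.cvx, p1.cov, p1.dis, p1.vol⟩,
    fun Q hQ => p2 Q ⟨hQ.compact, hQ.convex, hQ.cover, hQ.disjoint, hQ.equal⟩⟩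

end Pool.Agent.Results.MP_35de71_co.NearEllipse
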